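import Pool.Agent.helper82.UN.SpecP

/-! Row unh:PTQ (MP_cf4097_nt): a continuous periodic function descends to the torus -/

set_option autoImplicit false

open NumberField Complex MeasureTheory nonZeroDivisors

namespace Pool.Agent.UN

theorem PTQ_lift {ι : Type} (F : (ι → ℝ) → ℂ) (hp : ∀ (k : ι → ℤ) (t : ι → ℝ), F (t + zc k) = F t)
    (s t : ι → ℝ) (h : ∀ i, (s i : UnitAddCircle) = (t i : UnitAddCircle)) : F s = F t := by
  have h1 : ∀ i, ∃ k : ℤ, s i = t i + k := by
    intro i
    have h2 : ((s i - t i : ℝ) : UnitAddCircle) = 0 := by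
      rw [AddCircle.coe_sub, h i, sub_self]
    obtain ⟨k, hk⟩ := (AddCircle.coe_eq_zero_iff (1 : ℝ)).mp h2
    refine ⟨k, ?_⟩
    rw [zsmul_one] at hk
    rw [hk]
    ring
  choose k hk using h1
  have h3 : s = t + zc k := funext hk
  rw [h3, hp]

theorem PTQ : PTQ_stmt := by
  intro ι _ F hF hp
  obtain ⟨q, hq⟩ : ∃ q : (ι → ℝ) → UnitAddTorus ι, q = fun t i => (t i : UnitAddCircle) := ⟨_, rfl⟩
  have hquot : IsOpenQuotientMap q := by
    rw [hq]
    exact IsOpenQuotientMap.piMap fun _ => QuotientAddGroup.isOpenQuotientMap_mk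
  have hs : Function.Surjective q := hquot.surjective
  obtain ⟨G, hG⟩ : ∃ G : UnitAddTorus ι → ℂ, G = fun x => F (Function.surjInv hs x) := ⟨_, rfl⟩
  have hGq : ∀ t, G (q t) = F t := by
    intro t
    rw [hG]
    refine PTQ_lift F hp _ _ fun i => ?_
    have h1 : q (Function.surjInv hs (q t)) = q t := Function.surjInv_eq hs (q t)
    have h2 := congrFun h1 i
    have h3 : ∀ (s : ι → ℝ), q s i = (s i : UnitAddCircle) := fun s => by rw [hq]
    rw [h3, h3] at h2
    exact h2
  have hc : Continuous G := by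
    rw [hquot.isQuotientMap.continuous_iff]
    have h1 : G ∘ q = F := funext hGq
    rw [h1]
    exact hF
  refine ⟨⟨G, hc⟩, fun t => ?_⟩
  have h1 := hGq t
  rw [hq] at h1
  exact h1

end Pool.Agent.UN
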