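import Pool.Agent.helper87.UNH.HLE
import Pool.Agent.helper25.UNH.LMM
import Pool.Agent.helper88.UNH.LGP
import Pool.Agent.helper88.UNH.LPG
import Pool.Agent.helper88.UNH.LDS

/-!
# Project UN, block H, part L: complete

All the rows of part L (LMM, LGP, LPG, LDS, HLE) are proved; the only inputs left are the theta
representation MEL and the smooth functions FSM of block F (which is complete).
-/

set_option autoImplicit false

namespace Pool.Agent.UN

open NumberField NumberField.InfinitePlace IsDedekindDomain Complex

/-- the continuation of the Hecke functions from the theta representation -/
theorem L_all (hFSM : FSM_stmt) (hMEL : MEL_stmt) : HLE_stmt :=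
  HLE hMEL LMM LGP LPG (LDS hFSM)

end Pool.Agent.UN
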