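import Pool.Agent.helper87.UN.SpecL

/-! Row unh:HLE (MP_cf4097_nt): the L-function from the Mellin transform -/

set_option autoImplicit false

open NumberField Complex

namespace Pool.Agent.UN

theorem HLE_le {K : Type} [Field K] [NumberField K] {f : Ideal (𝓞 K)} {χ : Ideal (𝓞 K) → ℂ}
    {τ : InfinitePlace K → ℝ} {m : InfinitePlace K → ℤ} (hχ : HCharG f χ τ m) (a : Ideal (𝓞 K)) : ‖χ a‖ ≤ 1 := by
  by_cases h0 : a = ⊥
  · rw [h0, hχ.bot, norm_zero]; exact zero_le_one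
  · by_cases h1 : a ⊔ f = ⊤
    · exact (hχ.unit a h0 h1).le
    · rw [hχ.zero a h1, norm_zero]; exact zero_le_one

theorem HLE_q {K : Type} [Field K] [NumberField K] {f : Ideal (𝓞 K)} (hf : f ≠ ⊥) : 1 ≤ Dc K * Nm f := by
  have h1 : 1 ≤ Dc K := by
    have h : (1 : ℤ) ≤ |NumberField.discr K| := Int.one_le_abs (NumberField.discr_ne_zero K)
    have h2 : ((1 : ℤ) : ℝ) ≤ ((|NumberField.discr K| : ℤ) : ℝ) := by exact_mod_cast h
    rw [Int.cast_one, Int.cast_abs] at h2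
    exact h2
  have h2 : 1 ≤ Nm f := by
    have h3 : Ideal.absNorm f ≠ 0 := by
      rw [Ne, Ideal.absNorm_eq_zero_iff]
      exact hf
    have h4 : (1 : ℕ) ≤ Ideal.absNorm f := Nat.one_le_iff_ne_zero.mpr h3
    have h5 : ((1 : ℕ) : ℝ) ≤ (Ideal.absNorm f : ℝ) := by exact_mod_cast h4
    rw [Nat.cast_one] at h5
    exact h5
  nlinarith

theorem HLE (hMEL : MEL_stmt) (hLMM : LMM_stmt) (hLGP : LGP_stmt) (hLPG : LPG_stmt) (hLDS : LDS_stmt) : HLE_stmt := by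
  intro K _ _ f χ τ m hχ hNT
  obtain ⟨e, ε, κ, h, he1, hec, hε, hκ, hcont, hdec, hfe, hmel⟩ := hMEL K f χ τ m hχ hNT
  obtain ⟨n, hn⟩ : ∃ n : ℕ, n = Module.finrank ℚ K := ⟨_, rfl⟩
  rw [← hn] at hfe hmel
  have hn0 : 0 < n := by rw [hn]; exact Module.finrank_pos
  have hn0' : (0 : ℝ) < n := by exact_mod_cast hn0
  obtain ⟨hdiff, hfe2, hbd⟩ := hLMM h ((n : ℝ) / 2) ε (by positivity) hε hcont hdec hfe
  obtain ⟨e', C, hC, he', hprod⟩ := hLGP K τ m e hχ.real he1 hec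
  obtain ⟨μ, hμ⟩ : ∃ μ : (K →+* ℂ) → ℂ, μ = fun σ => τ (InfinitePlace.mk σ) * I + |(m (InfinitePlace.mk σ) : ℝ)| / 2 + e' σ := ⟨_, rfl⟩
  have hμ1 : ∀ s σ, s + τ (InfinitePlace.mk σ) * I + |(m (InfinitePlace.mk σ) : ℝ)| / 2 + e' σ = s + μ σ := by
    intro s σ
    rw [hμ]
    ring
  have hμ2 : ∀ (s : ℂ) (σ : K →+* ℂ), 1 - s - τ (InfinitePlace.mk σ) * I + |(m (InfinitePlace.mk σ) : ℝ)| / 2 + e' σ =
      1 - s + (starRingEnd ℂ) (μ σ) := by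
    intro s σ
    have h1 : (starRingEnd ℂ) (μ σ) = -(τ (InfinitePlace.mk σ) * I) + |(m (InfinitePlace.mk σ) : ℝ)| / 2 + e' σ := by
      rw [hμ]
      have e1 : (starRingEnd ℂ) (2 : ℂ) = 2 := map_ofNat _ 2
      simp only [map_add, map_mul, map_div₀, conj_ofReal, conj_I, e1]
      ring
    rw [h1]
    ring
  have hμ0 : ∀ σ, 0 ≤ (μ σ).re := by
    intro σ
    have h1 : (μ σ).re = |(m (InfinitePlace.mk σ) : ℝ)| / 2 + e' σ := by simp [hμ]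
    rw [h1]
    have h2 : 0 ≤ e' σ := by rcases he' σ with h | h <;> rw [h] <;> norm_num
    positivity
  obtain ⟨q, hq⟩ : ∃ q : ℝ, q = Dc K * Nm f := ⟨_, rfl⟩
  have hq1 : 1 ≤ q := by rw [hq]; exact HLE_q hχ.f0
  have hq0 : (0 : ℝ) < q := by linarith
  have hqc : (q : ℂ) ≠ 0 := by exact_mod_cast hq0.ne'
  have hκc : (κ : ℂ) ≠ 0 := by exact_mod_cast hκ.ne'
  rw [← hq] at hmel
  have hprod' : ∀ s : ℂ, ∏ σ : K →+* ℂ, Gammaℝ (s + μ σ) = C * gf τ (aa m e) s := by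
    intro s
    rw [← hprod s]
    exact Finset.prod_congr rfl fun σ _ => by rw [hμ1]
  obtain ⟨L, hL⟩ : ∃ L : ℂ → ℂ, L = fun s => (C / κ : ℂ) * (q : ℂ) ^ (-(s / 2)) * mellin h (n * s / 2) *
      ∏ σ : K →+* ℂ, (Gammaℝ (s + μ σ))⁻¹ := ⟨_, rfl⟩
  have hLs : ∀ s, L s = (C / κ : ℂ) * (q : ℂ) ^ (-(s / 2)) * mellin h (n * s / 2) *
      ∏ σ : K →+* ℂ, (Gammaℝ (s + μ σ))⁻¹ := fun s => by rw [hL]
  have hser : ∀ s : ℂ, 1 < s.re → L s = ∑' a : Ideal (𝓞 K), χ a * (Nm a : ℂ) ^ (-s) := by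
    intro s hs
    have h1 : ∏ σ : K →+* ℂ, Gammaℝ (s + μ σ) ≠ 0 := by
      refine Finset.prod_ne_zero_iff.mpr fun σ _ => Gammaℝ_ne_zero_of_re_pos ?_
      have := hμ0 σ
      rw [add_re]
      linarith
    have h2 : (q : ℂ) ^ (-(s / 2)) * (q : ℂ) ^ (s / 2) = 1 := by
      rw [← cpow_add _ _ hqc, neg_add_cancel, cpow_zero]
    rw [hLs, hmel s hs, Finset.prod_inv_distrib]
    have h3 : C * gf τ (aa m e) s * (∏ σ : K →+* ℂ, Gammaℝ (s + μ σ))⁻¹ = 1 := by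
      rw [← hprod' s, mul_inv_cancel₀ h1]
    calc (C / κ : ℂ) * (q : ℂ) ^ (-(s / 2)) * (κ * (q : ℂ) ^ (s / 2) * gf τ (aa m e) s *
          ∑' a : Ideal (𝓞 K), χ a * (Nm a : ℂ) ^ (-s)) * (∏ σ : K →+* ℂ, Gammaℝ (s + μ σ))⁻¹
        = ((κ : ℂ) / κ) * ((q : ℂ) ^ (-(s / 2)) * (q : ℂ) ^ (s / 2)) *
            (C * gf τ (aa m e) s * (∏ σ : K →+* ℂ, Gammaℝ (s + μ σ))⁻¹) *
            ∑' a : Ideal (𝓞 K), χ a * (Nm a : ℂ) ^ (-s) := by ring
      _ = _ := by rw [h2, h3, div_self hκc, one_mul, one_mul, one_mul]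
  have hent : Differentiable ℂ L := by
    rw [hL]
    intro s
    refine DifferentiableAt.mul (DifferentiableAt.mul (DifferentiableAt.mul (differentiableAt_const _) ?_) ?_) ?_
    · exact DifferentiableAt.const_cpow (by fun_prop) (Or.inl hqc)
    · have h1 : Differentiable ℂ fun s : ℂ => (n : ℂ) * s / 2 := by fun_prop
      exact (hdiff.comp h1) s
    · refine DifferentiableAt.fun_finsetProd fun σ _ => ?_
      have h1 : Differentiable ℂ fun s : ℂ => s + μ σ := by fun_prop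
      exact (differentiable_Gammaℝ_inv.comp h1) s
  have hqconj : ∀ z : ℂ, (starRingEnd ℂ) ((q : ℂ) ^ z) = (q : ℂ) ^ ((starRingEnd ℂ) z) := by
    intro z
    rw [cpow_conj _ _ (by rw [arg_ofReal_of_nonneg hq0.le]; exact Real.pi_pos.ne), conj_ofReal]
  have hGconj : ∀ z : ℂ, (starRingEnd ℂ) (Gammaℝ z) = Gammaℝ ((starRingEnd ℂ) z) := by
    intro z
    have h1 : (starRingEnd ℂ) ((Real.pi : ℂ) ^ (-z / 2)) = (Real.pi : ℂ) ^ ((starRingEnd ℂ) (-z / 2)) := by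
      rw [cpow_conj _ _ (by rw [arg_ofReal_of_nonneg Real.pi_pos.le]; exact Real.pi_pos.ne), conj_ofReal]
    have h2 : (starRingEnd ℂ) (z / 2) = (starRingEnd ℂ) z / 2 := by
      rw [map_div₀, map_ofNat]
    have h3 : (starRingEnd ℂ) (-z / 2) = -(starRingEnd ℂ) z / 2 := by
      rw [map_div₀, map_neg, map_ofNat]
    rw [Gammaℝ_def, Gammaℝ_def, map_mul, h1, h3, ← h2, Gamma_conj]
  have hfeq : ∀ s : ℂ, (q : ℂ) ^ (s / 2) * L s * ∏ σ : K →+* ℂ, (Gammaℝ (1 - s + (starRingEnd ℂ) (μ σ)))⁻¹ =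
      ε * ((q : ℂ) ^ ((1 - s) / 2) * (starRingEnd ℂ) (L (1 - (starRingEnd ℂ) s)) * ∏ σ : K →+* ℂ, (Gammaℝ (s + μ σ))⁻¹) := by
    intro s
    have h1 : mellin h (n * s / 2) = ε * (starRingEnd ℂ) (mellin h (n * (1 - (starRingEnd ℂ) s) / 2)) := by
      rw [hfe2]
      congr 3
      rw [map_div₀, map_mul, map_ofNat, map_natCast]
      push_cast
      ring
    have h2 : (starRingEnd ℂ) (L (1 - (starRingEnd ℂ) s)) = (C / κ : ℂ) * (q : ℂ) ^ (-((1 - s) / 2)) *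
        (starRingEnd ℂ) (mellin h (n * (1 - (starRingEnd ℂ) s) / 2)) *
        ∏ σ : K →+* ℂ, (Gammaℝ (1 - s + (starRingEnd ℂ) (μ σ)))⁻¹ := by
      rw [hLs, map_mul, map_mul, map_mul, hqconj, map_prod]
      congr 1
      · congr 1
        congr 1
        · rw [map_div₀, conj_ofReal, conj_ofReal]
        · congr 1
          rw [map_neg, map_div₀, map_sub, map_one, conj_conj, map_ofNat]
      · refine Finset.prod_congr rfl fun σ _ => ?_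
        rw [map_inv₀, hGconj, map_add, map_sub, map_one, conj_conj]
    have h3 : (q : ℂ) ^ (s / 2) * (q : ℂ) ^ (-(s / 2)) = 1 := by
      rw [← cpow_add _ _ hqc, add_neg_cancel, cpow_zero]
    have h4 : (q : ℂ) ^ ((1 - s) / 2) * (q : ℂ) ^ (-((1 - s) / 2)) = 1 := by
      rw [← cpow_add _ _ hqc, add_neg_cancel, cpow_zero]
    rw [h2, hLs, h1]
    obtain ⟨P1, hP1⟩ : ∃ P1, P1 = ∏ σ : K →+* ℂ, (Gammaℝ (s + μ σ))⁻¹ := ⟨_, rfl⟩
    obtain ⟨P2, hP2⟩ : ∃ P2, P2 = ∏ σ : K →+* ℂ, (Gammaℝ (1 - s + (starRingEnd ℂ) (μ σ)))⁻¹ := ⟨_, rfl⟩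
    obtain ⟨M, hM⟩ : ∃ M, M = (starRingEnd ℂ) (mellin h (n * (1 - (starRingEnd ℂ) s) / 2)) := ⟨_, rfl⟩
    rw [← hP1, ← hP2, ← hM]
    calc (q : ℂ) ^ (s / 2) * ((C / κ : ℂ) * (q : ℂ) ^ (-(s / 2)) * (ε * M) * P1) * P2
        = ((q : ℂ) ^ (s / 2) * (q : ℂ) ^ (-(s / 2))) * ((C / κ : ℂ) * ε * M * P1 * P2) := by ring
      _ = ((q : ℂ) ^ ((1 - s) / 2) * (q : ℂ) ^ (-((1 - s) / 2))) * ((C / κ : ℂ) * ε * M * P1 * P2) := by rw [h3, h4]
      _ = _ := by ring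
  refine ⟨L, hent, ?_, hser, ε, e', hε, he', ?_⟩
  · refine hLPG (K →+* ℂ) μ L q ε hq0 hμ0 hε hent hfeq ?_ ?_
    · intro A
      obtain ⟨M, hM⟩ := hbd (n * A / 2)
      refine ⟨|C / κ| * q ^ (A / 2) * |M|, fun s hs => ?_⟩
      rw [hLs, norm_mul, norm_mul, norm_mul, norm_prod]
      refine mul_le_mul_of_nonneg_right ?_ (Finset.prod_nonneg fun σ _ => norm_nonneg _)
      have h1 : ‖(C / κ : ℂ)‖ = |C / κ| := by
        rw [← ofReal_div, norm_real, Real.norm_eq_abs]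
      have h2 : ‖(q : ℂ) ^ (-(s / 2))‖ ≤ q ^ (A / 2) := by
        rw [norm_cpow_eq_rpow_re_of_pos hq0]
        refine Real.rpow_le_rpow_of_exponent_le hq1 ?_
        have h3 : (-(s / 2)).re = -s.re / 2 := by simp; ring
        rw [h3]
        have := (abs_le.mp hs).1
        linarith
      have h3 : ‖mellin h (n * s / 2)‖ ≤ |M| := by
        refine (hM _ ?_).trans (le_abs_self M)
        have h4 : ((n : ℂ) * s / 2).re = n * s.re / 2 := by simp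
        rw [h4, abs_div, abs_mul, abs_of_pos hn0', abs_two]
        exact div_le_div_of_nonneg_right (mul_le_mul_of_nonneg_left hs hn0'.le) zero_le_two
      rw [h1]
      exact mul_le_mul (mul_le_mul_of_nonneg_left h2 (abs_nonneg _)) h3 (norm_nonneg _) (by positivity)
    · obtain ⟨C', hC'⟩ := hLDS K χ (HLE_le hχ) hχ.bot
      refine ⟨C', fun s hs => ?_⟩
      rw [hser s (by linarith)]
      exact hC' s hs
  · intro s
    rw [← hq]
    have h1 : ∏ σ : K →+* ℂ, (Gammaℝ (1 - s - τ (InfinitePlace.mk σ) * I + |(m (InfinitePlace.mk σ) : ℝ)| / 2 + e' σ))⁻¹ =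
        ∏ σ : K →+* ℂ, (Gammaℝ (1 - s + (starRingEnd ℂ) (μ σ)))⁻¹ :=
      Finset.prod_congr rfl fun σ _ => by rw [hμ2]
    have h2 : ∏ σ : K →+* ℂ, (Gammaℝ (s + τ (InfinitePlace.mk σ) * I + |(m (InfinitePlace.mk σ) : ℝ)| / 2 + e' σ))⁻¹ =
        ∏ σ : K →+* ℂ, (Gammaℝ (s + μ σ))⁻¹ :=
      Finset.prod_congr rfl fun σ _ => by rw [hμ1]
    rw [h1, h2]
    exact hfeq s

end Pool.Agent.UN
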